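import Pool.Agent.N931.PN.Stm5
import Pool.Agent.N954.PN.VF

set_option autoImplicit false

/-!
PN/VF2: free side, vertices: a dual crossing off the boundary (helper368, after `Pool.Agent.N954.PN.VF`).
-/

open H974 H12S H389NS H984N H984P H342P Finset
open Pool.Agent.N116.EW Pool.Agent.N931.PN

namespace Pool.Agent.N368.PN.VF2

open Pool.Agent.N954.PN

/-- Faces next to the edges of the box. -/
def fr (z : Vtx) (R : ℕ) (f : Vtx) : Prop :=
  z.1 - R - 1 ≤ f.1 ∧ f.1 ≤ z.1 + R ∧ z.2 - R - 1 ≤ f.2 ∧ f.2 ≤ z.2 + R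

theorem fr_of_sd {z f : Vtx} {R : ℕ} (h : sd f z ≤ R) : fr z R f := by
  unfold sd at h
  unfold fr
  simp only [max_le_iff, abs_le] at h
  omega

theorem fr_blk {z : Vtx} {R : ℕ} {g : Edg} (h : g ∈ blk z R) : fr z R (dsrc g) ∧ fr z R (dtgt g) := by
  obtain ⟨x, y, b⟩ := g
  unfold blk at h
  unfold fr
  cases b
  · rw [mem_RE_false] at h
    rw [dsrc_false, dtgt_mk]
    simp only
    omega
  · rw [mem_RE_true] at h
    rw [dsrc_true, dtgt_mk]
    simp only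
    omega

theorem inF_edge {D : Dm} {g : Edg} (h1 : inF D (dsrc g)) (h2 : inF D (dtgt g)) : g ∈ D.edges := by
  obtain ⟨x, y, b⟩ := g
  unfold N931.PN.inF at h1 h2
  unfold Dm.edges
  cases b
  · rw [dsrc_false] at h1
    rw [dtgt_mk] at h2
    simp only at h1 h2
    rw [mem_RE_false]
    omega
  · rw [dsrc_true] at h1
    rw [dtgt_mk] at h2
    simp only at h1 h2
    rw [mem_RE_true]
    omega

theorem dadj_blk {z : Vtx} {m : ℕ} {g : Edg} {u w : Vtx}
    (h : (dsrc g = u ∧ dtgt g = w) ∨ (dsrc g = w ∧ dtgt g = u)) (hu : sd u z < m) :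
    g ∈ blk z m ∧ sd w z ≤ m := by
  obtain ⟨x, y, b⟩ := g
  rw [mem_blk]
  unfold sd at *
  rcases h with ⟨rfl, rfl⟩ | ⟨rfl, rfl⟩ <;> cases b <;>
    simp only [src_mk, tgt_false, tgt_true, dsrc_false, dsrc_true, dtgt_mk, max_le_iff, max_lt_iff, abs_le, abs_lt] at * <;>
    omega

/-- The faces outside of the rectangle near the box are joined. -/
theorem out_join2 {D : Dm} {z : Vtx} {R : ℕ} (hN : Near1 D z R) {f f' : Vtx}
    (hf : ¬ inF D f) (hf' : ¬ inF D f') (h : fr z R f) (h' : fr z R f') :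
    DReach ((↑(blk z (R + 1)) : Set Edg) \ ↑D.edges) f f' := by
  obtain ⟨⟨⟨i1, i2⟩, i3, i4⟩, hN⟩ := hN
  suffices hs : ∃ x0 y0 : ℤ, ∀ f : Vtx, ¬ inF D f → fr z R f →
      DReach ((↑(blk z (R + 1)) : Set Edg) \ ↑D.edges) f (x0, y0) by
    obtain ⟨x0, y0, hs⟩ := hs
    exact (hs f hf h).trans (hs f' hf' h').symm
  have e1 : ∀ x y, ((x, y, true) : Edg) ∈ (↑(blk z (R + 1)) : Set Edg) \ ↑D.edges ↔
      (z.1 - (R + 1) ≤ x ∧ x < z.1 + (R + 1) ∧ z.2 - (R + 1) ≤ y ∧ y ≤ z.2 + (R + 1)) ∧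
        ¬ (D.l ≤ x ∧ x < D.r ∧ 0 ≤ y ∧ y ≤ D.h) := by
    intro x y
    simp only [Set.mem_sdiff, Finset.mem_coe, blk, Dm.edges, mem_RE_true, Nat.cast_add, Nat.cast_one]
  have e2 : ∀ x y, ((x, y, false) : Edg) ∈ (↑(blk z (R + 1)) : Set Edg) \ ↑D.edges ↔
      (z.1 - (R + 1) ≤ x ∧ x ≤ z.1 + (R + 1) ∧ z.2 - (R + 1) ≤ y ∧ y < z.2 + (R + 1)) ∧
        ¬ (D.l ≤ x ∧ x ≤ D.r ∧ 0 ≤ y ∧ y < D.h) := by
    intro x y
    simp only [Set.mem_sdiff, Finset.mem_coe, blk, Dm.edges, mem_RE_false, Nat.cast_add, Nat.cast_one]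
  rcases hN with hN | hN | hN | hN
  · -- bottom
    refine ⟨z.1, -1, fun f hf h => ?_⟩
    obtain ⟨a, b⟩ := f
    unfold N931.PN.inF at hf
    unfold fr at h
    simp only at hf h
    have hb : b ≤ -1 := by omega
    refine DReach.trans (v := (z.1, b)) ?_ ?_
    · exact row_join' (a := z.1 - R) (b := z.1 + R) (by omega) (by omega) (by omega) (by omega)
        fun x' h5 h6 => (e2 _ _).mpr (by omega)
    · exact col_join' (a := z.2 - R) (b := -1) (by omega) (by omega) (by omega) (by omega)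
        fun y' h5 h6 => (e1 _ _).mpr (by omega)
  · -- top
    refine ⟨z.1, D.h, fun f hf h => ?_⟩
    obtain ⟨a, b⟩ := f
    unfold N931.PN.inF at hf
    unfold fr at h
    simp only at hf h
    have hb : D.h ≤ b := by omega
    refine DReach.trans (v := (z.1, b)) ?_ ?_
    · exact row_join' (a := z.1 - R) (b := z.1 + R) (by omega) (by omega) (by omega) (by omega)
        fun x' h5 h6 => (e2 _ _).mpr (by omega)
    · exact col_join' (a := D.h + 1) (b := z.2 + R) (by omega) (by omega) (by omega) (by omega)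
        fun y' h5 h6 => (e1 _ _).mpr (by omega)
  · -- left
    refine ⟨D.l - 1, z.2, fun f hf h => ?_⟩
    obtain ⟨a, b⟩ := f
    unfold N931.PN.inF at hf
    unfold fr at h
    simp only at hf h
    have hb : a ≤ D.l - 1 := by omega
    refine DReach.trans (v := (a, z.2)) ?_ ?_
    · exact col_join' (a := z.2 - R) (b := z.2 + R) (by omega) (by omega) (by omega) (by omega)
        fun y' h5 h6 => (e1 _ _).mpr (by omega)
    · exact row_join' (a := z.1 - R) (b := D.l - 1) (by omega) (by omega) (by omega) (by omega)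
        fun x' h5 h6 => (e2 _ _).mpr (by omega)
  · -- right
    refine ⟨D.r, z.2, fun f hf h => ?_⟩
    obtain ⟨a, b⟩ := f
    unfold N931.PN.inF at hf
    unfold fr at h
    simp only at hf h
    have hb : D.r ≤ a := by omega
    refine DReach.trans (v := (a, z.2)) ?_ ?_
    · exact col_join' (a := z.2 - R) (b := z.2 + R) (by omega) (by omega) (by omega) (by omega)
        fun y' h5 h6 => (e1 _ _).mpr (by omega)
    · exact row_join' (a := D.r + 1) (b := z.1 + R) (by omega) (by omega) (by omega) (by omega)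
        fun x' h5 h6 => (e2 _ _).mpr (by omega)

/-- First exit of a dual path. -/
theorem dfirst_exit {S : Set Edg} {z u w : Vtx} {R : ℕ} (hu : sd u z ≤ R) (h : DReach S u w)
    (hw : (R : ℤ) ≤ sd w z) : ∃ w', sd w' z = R ∧ DReach (S ∩ ↑(blk z R)) u w' := by
  have key : ∀ w, DReach S u w → (DReach (S ∩ ↑(blk z R)) u w ∧ sd w z ≤ R) ∨
      ∃ w', sd w' z = R ∧ DReach (S ∩ ↑(blk z R)) u w' := by
    intro w h
    induction h with
    | refl => exact Or.inl ⟨DReach.refl _ _, hu⟩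
    | @tail a b _ hs ih =>
      rcases ih with ⟨h1, h2⟩ | h1
      · rcases eq_or_lt_of_le h2 with h3 | h3
        · exact Or.inr ⟨a, h3, h1⟩
        · obtain ⟨g, hg, hg'⟩ := hs
          have hb := dadj_blk hg' h3
          exact Or.inl ⟨h1.trans (DAdj.reach ⟨g, ⟨hg, hb.1⟩, hg'⟩), hb.2⟩
      · exact Or.inr h1
  rcases key w h with ⟨h1, h2⟩ | h1
  · exact ⟨w, le_antisymm h2 hw, h1⟩
  · exact h1

theorem fr_path {S : Set Edg} {z f g : Vtx} {R : ℕ} (hS : S ⊆ ↑(blk z R)) (hf : fr z R f) (h : DReach S f g) :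
    fr z R g := by
  induction h with
  | refl => exact hf
  | @tail a b _ hs ih =>
    obtain ⟨e, he, he'⟩ := hs
    have h1 := fr_blk (hS he)
    rcases he' with ⟨_, h2⟩ | ⟨h2, _⟩
    · rw [← h2]
      exact h1.2
    · rw [← h2]
      exact h1.1

theorem in_path {S : Set Edg} {D : Dm} {z f0 g : Vtx} {R : ℕ}
    (hb : ¬ ∃ f', ¬ inF D f' ∧ fr z R f' ∧ DReach S f0 f') (h0 : fr z R f0)
    (h : DReach (S ∩ ↑(blk z R)) f0 g) : DReach (S ∩ ↑(blk z R) ∩ ↑D.edges) f0 g := by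
  induction h with
  | refl => exact DReach.refl _ _
  | @tail a b hab hs ih =>
    obtain ⟨e, he, he'⟩ := hs
    have ha1 : DReach S f0 a := DReach.mono Set.inter_subset_left hab
    have hb1 : DReach S f0 b := ha1.trans (DAdj.reach ⟨e, he.1, he'⟩)
    have ha2 : fr z R a := fr_path Set.inter_subset_right h0 hab
    have hb2 : fr z R b := by
      have h1 := fr_blk (Finset.mem_coe.1 he.2)
      rcases he' with ⟨_, h2⟩ | ⟨h2, _⟩
      · rw [← h2]
        exact h1.2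
      · rw [← h2]
        exact h1.1
    have ha3 : inF D a := by
      by_contra hcon
      exact hb ⟨a, hcon, ha2, ha1⟩
    have hb3 : inF D b := by
      by_contra hcon
      exact hb ⟨b, hcon, hb2, hb1⟩
    have heD : e ∈ D.edges := by
      rcases he' with ⟨h2, h3⟩ | ⟨h2, h3⟩
      · exact inF_edge (by rw [h2]; exact ha3) (by rw [h3]; exact hb3)
      · exact inF_edge (by rw [h2]; exact hb3) (by rw [h3]; exact ha3)
    exact ih.trans (DAdj.reach ⟨e, ⟨he, heD⟩, he'⟩)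

theorem main : S_VF2 := by
  classical
  intro D hD G B hG z d R ρ hN hd hdR hRρ hB hwv hbad
  obtain ⟨e, heG, heF, x, v, y, hEn, hy, hx, hv, hyG, w, hvw, hreach⟩ := hbad
  have heB : e ∈ B := by
    by_contra h
    exact heF (Or.inl (by simp [heG, h]))
  have heb : e ∈ blk z d := hB heB
  have hends := mem_blk.mp heb
  have hxz : sd x z ≤ d := by
    rcases hEn with ⟨rfl, _⟩ | ⟨rfl, _⟩
    · exact hends.1
    · exact hends.2
  have hvz : sd v z ≤ d := by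
    rcases hEn with ⟨_, rfl⟩ | ⟨_, rfl⟩
    · exact hends.2
    · exact hends.1
  have hdR' : (d : ℤ) + 4 ≤ R := by exact_mod_cast hdR
  have hRρ' : (R : ℤ) + d + 4 ≤ ρ := by exact_mod_cast hRρ
  obtain ⟨Q, hQ⟩ : ∃ Q : ℕ, Q = R + 1 := ⟨_, rfl⟩
  have hQz : (Q : ℤ) = R + 1 := by rw [hQ]; push_cast; rfl
  -- no wired edge in the box
  have hwir : ∀ g ∈ blk z Q, g ∉ D.wir := by
    intro g hg hg'
    have h1 := hwv (src g) ⟨g, hg', Or.inl rfl⟩
    have h2 := (mem_blk.mp hg).1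
    omega
  have h00 : (R : ℤ) + 2 ≤ sd (0, 0) z := by
    refine hwv _ ⟨(-1, 0, true), Or.inr (Or.inr ⟨rfl, rfl, ?_, ?_⟩), Or.inr ?_⟩
    · have := hD.l_neg
      simp only
      omega
    · norm_num
    · rw [tgt_true]; norm_num
  -- first arm
  have hxr : Reach (D.cfg (G \ B)) x (0, 0) := Reach.symm hx
  obtain ⟨w1, hw1, hr1⟩ := first_exit (z := z) (R := Q) (by omega) hxr (by omega)
  -- second arm
  set SV : Set Edg := {g | g ∈ D.cfg G ∧ src g ∉ D.clu (G \ B) ∧ tgt g ∉ D.clu (G \ B)} with hSV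
  have hwz : (Q : ℤ) ≤ sd w z := by
    have : sd v w ≤ sd v z + sd w z := by
      unfold sd
      simp only [max_le_iff]
      have t1 : |v.1 - w.1| ≤ |v.1 - z.1| + |w.1 - z.1| := by
        have := abs_sub_le v.1 z.1 w.1
        rwa [abs_sub_comm z.1 w.1] at this
      have t2 : |v.2 - w.2| ≤ |v.2 - z.2| + |w.2 - z.2| := by
        have := abs_sub_le v.2 z.2 w.2
        rwa [abs_sub_comm z.2 w.2] at this
      have m1 := le_max_left |v.1 - z.1| |v.2 - z.2|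
      have m2 := le_max_right |v.1 - z.1| |v.2 - z.2|
      have m3 := le_max_left |w.1 - z.1| |w.2 - z.2|
      have m4 := le_max_right |w.1 - z.1| |w.2 - z.2|
      constructor <;> omega
    omega
  obtain ⟨w2, hw2, hr2⟩ := first_exit (z := z) (R := Q) (by omega) hreach hwz
  have hAN : ∀ g, g ∈ blk z R → g ∉ blk z d → g ∈ AN z d R := fun g h1 h2 =>
    Finset.mem_sdiff.mpr ⟨h1, h2⟩
  -- the configuration in the box
  set F2 : Set Edg := (↑(G \ B) ∪ {g | g ∈ G ∧ src g ∉ D.clu (G \ B) ∧ tgt g ∉ D.clu (G \ B)}) ∩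
    ↑(blk z Q) with hF2
  have hF2G : F2 ⊆ ↑G := by
    rintro g ⟨h1 | h1, _⟩
    · exact (Finset.mem_sdiff.mp h1).1
    · exact h1.1
  have hF2Q : F2 ⊆ ↑(RE (z.1 - Q) (z.1 + Q) (z.2 - Q) (z.2 + Q)) := fun g hg => hg.2
  have heQ : e ∈ RE (z.1 - Q) (z.1 + Q) (z.2 - Q) (z.2 + Q) := by
    have : e ∈ blk z Q := mem_blk.mpr ⟨by omega, by omega⟩
    exact this
  have heF2 : e ∉ F2 := by
    rintro ⟨h1 | h1, _⟩
    · exact heF (Or.inl h1)
    · rcases hEn with ⟨h2, _⟩ | ⟨h2, _⟩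
      · exact h1.2.1 (h2 ▸ hx)
      · exact h1.2.2 (h2 ▸ hx)
  have hbd : ∀ q, sd q z = Q → q ∈ bdR (z.1 - Q) (z.1 + Q) (z.2 - Q) (z.2 + Q) := by
    intro q hq
    unfold sd at hq
    have m1 := le_max_left |q.1 - z.1| |q.2 - z.2|
    have m2 := le_max_right |q.1 - z.1| |q.2 - z.2|
    have m3 : max |q.1 - z.1| |q.2 - z.2| = |q.1 - z.1| ∨
        max |q.1 - z.1| |q.2 - z.2| = |q.2 - z.2| := max_choice _ _
    unfold bdR inR
    simp only [Set.mem_ofPred_eq]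
    rcases abs_cases (q.1 - z.1) with ⟨a1, a2⟩ | ⟨a1, a2⟩ <;>
      rcases abs_cases (q.2 - z.2) with ⟨b1, b2⟩ | ⟨b1, b2⟩ <;> omega
  have hxb : ∃ w' ∈ bdR (z.1 - Q) (z.1 + Q) (z.2 - Q) (z.2 + Q), Reach F2 x w' := by
    refine ⟨w1, hbd w1 hw1, hr1.mono ?_⟩
    rintro g ⟨h1, h2⟩
    refine ⟨Or.inl ?_, h2⟩
    rcases h1 with h1 | h1
    · exact h1
    · exact absurd h1 (hwir g h2)
  have hvb : ∃ w' ∈ bdR (z.1 - Q) (z.1 + Q) (z.2 - Q) (z.2 + Q), Reach F2 v w' := by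
    refine ⟨w2, hbd w2 hw2, hr2.mono ?_⟩
    rintro g ⟨h1, h2⟩
    refine ⟨Or.inr ⟨?_, h1.2.1, h1.2.2⟩, h2⟩
    rcases h1.1 with h3 | h3
    · exact h3
    · exact absurd h3 (hwir g h2)
  have hxv : ¬ Reach F2 x v := by
    intro hcon
    have h3 : ∀ q, Reach F2 x q → q ∈ D.clu (G \ B) := by
      intro q hq
      induction hq with
      | refl => exact hx
      | @tail a b _ hs ih =>
        obtain ⟨g, ⟨hg, _⟩, hg'⟩ := hs
        rcases hg with hg | hg
        · exact reach_clu (S := {g}) (fun g' h => Or.inl (by rw [Set.mem_singleton_iff.mp h]; exact hg)) ih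
            (Adj.reach ⟨g, rfl, hg'⟩)
        · exfalso
          rcases hg' with ⟨rfl, _⟩ | ⟨_, rfl⟩
          · exact hg.2.1 ih
          · exact hg.2.2 ih
    exact hv (h3 v hcon)
  have hsb : ∃ w' ∈ bdR (z.1 - Q) (z.1 + Q) (z.2 - Q) (z.2 + Q), Reach F2 (src e) w' := by
    rcases hEn with ⟨h1, _⟩ | ⟨_, h1⟩
    · rw [← h1]; exact hxb
    · rw [← h1]; exact hvb
  have htb : ∃ w' ∈ bdR (z.1 - Q) (z.1 + Q) (z.2 - Q) (z.2 + Q), Reach F2 (tgt e) w' := by
    rcases hEn with ⟨_, h1⟩ | ⟨h1, _⟩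
    · rw [← h1]; exact hvb
    · rw [← h1]; exact hxb
  have hst : ¬ Reach F2 (src e) (tgt e) := by
    intro hcon
    rcases hEn with ⟨h1, h2⟩ | ⟨h1, h2⟩
    · rw [← h1, ← h2] at hcon; exact hxv hcon
    · rw [← h1, ← h2] at hcon; exact hxv hcon.symm
  have hsep := dual_sep hF2Q heQ heF2 hsb htb
  obtain ⟨g0, hg0, hd0⟩ := dual_arm hF2Q heQ heF2 hsb htb hst (Or.inl ⟨rfl, rfl⟩)
  obtain ⟨g1, hg1, hd1⟩ := dual_arm hF2Q heQ heF2 hsb htb hst (Or.inr ⟨rfl, rfl⟩)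
  set S : Set Edg := (↑(RE (z.1 - Q) (z.1 + Q) (z.2 - Q) (z.2 + Q)) \ F2) \ {e} with hS
  have hSU : (↑(blk z (R + 1)) : Set Edg) \ ↑D.edges ⊆ S := by
    rintro g ⟨h1, h2⟩
    rw [← hQ] at h1
    refine ⟨⟨h1, fun h3 => h2 (hG (hF2G h3))⟩, ?_⟩
    intro h3
    rw [Set.mem_singleton_iff] at h3
    rw [h3] at h2
    exact h2 (hG heG)
  have hRQ : ∀ g, g ∈ blk z R → g ∈ blk z Q := by
    intro g hg
    rw [mem_blk] at hg ⊢
    omega
  have hcE : cE D z d R G ⊆ S := by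
    rintro g ⟨h1, h2, h3⟩
    refine ⟨⟨hRQ g (Finset.mem_sdiff.mp h3).1, fun h4 => h2 (hF2G h4)⟩, ?_⟩
    intro h4
    rw [Set.mem_singleton_iff] at h4
    exact h2 (h4 ▸ heG)
  have hcEb : cE D z d R G ⊆ ↑(blk z R) := by
    rintro g ⟨_, _, h3⟩
    exact (Finset.mem_sdiff.mp h3).1
  have hmain : ∀ f0 g0 : Vtx, sd f0 z ≤ d + 1 → g0 ∈ outF (z.1 - Q) (z.1 + Q) (z.2 - Q) (z.2 + Q) →
      DReach S f0 g0 → (¬ ∃ f', ¬ inF D f' ∧ fr z R f' ∧ DReach S f0 f') → YD D z d R G := by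
    intro f0 g0 hf0 hg0 h0 hb
    have hg0R : (R : ℤ) ≤ sd g0 z := by
      unfold sd
      rcases hg0 with h | h | h | h
      · exact le_trans (by rw [le_abs]; omega) (le_max_left _ _)
      · exact le_trans (by rw [le_abs]; omega) (le_max_left _ _)
      · exact le_trans (by rw [le_abs]; omega) (le_max_right _ _)
      · exact le_trans (by rw [le_abs]; omega) (le_max_right _ _)
    have hfr0 : fr z R f0 := fr_of_sd (by omega)
    obtain ⟨g', hg', hr⟩ := dfirst_exit (z := z) (R := R) (by omega) h0 hg0R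
    have hr2 := in_path hb hfr0 hr
    obtain ⟨u', hu', hr3⟩ := dlast_exit hf0 hr2
    have hr4 : DReach S u' g' := hr3.mono fun q hq => hq.1.1.1
    have hr5 : DReach S f0 u' := (hr.mono Set.inter_subset_left).trans hr4.symm
    refine ⟨u', g', hu', hg'.ge, hr3.mono ?_, ?_⟩
    · rintro q ⟨⟨⟨h1, h2⟩, h3⟩, h4⟩
      refine ⟨h3, ?_, hAN q h2 h4⟩
      intro h5
      refine h1.1.2 ⟨Or.inl ?_, h1.1.1⟩
      exact Finset.mem_coe.mpr (Finset.mem_sdiff.mpr ⟨h5, fun h6 => h4 (hB h6)⟩)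
    · intro f' hf' hre
      exact hb ⟨f', hf', fr_path hcEb (fr_of_sd (by omega)) hre, hr5.trans (hre.mono hcE)⟩
  have hfe := face_blk heb
  by_cases hb0 : ∃ f', ¬ inF D f' ∧ fr z R f' ∧ DReach S (dsrc e) f'
  · by_cases hb1 : ∃ f', ¬ inF D f' ∧ fr z R f' ∧ DReach S (dtgt e) f'
    · exfalso
      obtain ⟨f0, hf01, hf02, hf03⟩ := hb0
      obtain ⟨f1, hf11, hf12, hf13⟩ := hb1
      exact hsep (hf03.trans (((out_join2 hN hf01 hf11 hf02 hf12).mono hSU).trans hf13.symm))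
    · exact hmain _ g1 hfe.2 hg1 hd1 hb1
  · exact hmain _ g0 hfe.1 hg0 hd0 hb0

end Pool.Agent.N368.PN.VF2
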